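import Pool.Agent.Helper80.NQ.Defs
import Pool.Agent.Helper65.NQ.Beam

set_option autoImplicit false

/-!
# NQ: the interface between the oracle (Tau, World) and the device (Mean, Accept)
-/

namespace Pool.Agent.Helper80.NQ

open Finset
open Pool.Agent.Helper67.EQP Pool.Agent.Helper67.LB
open Pool.Agent.Helper74.NQ
open Pool.Agent.Helper65.NQ (quad)

/-- parity of the class `|κ| + j` of a string of the length of the device -/
def pr {κ : List Bool} {M : ℕ} (x : Fin (size κ M) → Bool) (j : ℕ) : Bool :=
  decide (Odd #{i : Fin (size κ M) | i.1 % cls κ = κ.length + j ∧ x i = true})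

/-- The oracle `A` stores the instance `X` at the code `κ`. -/
def Stores (A : List Bool → Bool) (κ : List Bool) (X : Idx (par κ) → Bool) : Prop :=
  (∀ (M : ℕ) (x : Fin (size κ M) → Bool), 13 * κ.length + 20 ≤ size κ M →
    (∀ j : Fin κ.length, decide (#{i : Fin (size κ M) | i.1 % cls κ = j.1 ∧ x i = false} <
      #{i : Fin (size κ M) | i.1 % cls κ = j.1 ∧ x i = true}) = κ.get j) →
    A (List.ofFn x) = xor (if pr x (2 * par κ + 4) = true
      then quad (fun j : Fin (2 * par κ + 4) => pr x j.1)
      else X (Sum.inl (Sum.inl (fun j : Fin (2 * par κ + 4) => pr x j.1))))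
      (pr x (2 * par κ + 5))) ∧
  ∀ k : Fin (2 * par κ + 4) → Bool,
    A (look (κ ++ List.ofFn k)) = xor (X (Sum.inl (Sum.inr k))) (quad k)

end Pool.Agent.Helper80.NQ
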