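import Pool.Agent.Helper67.EL.Defs
import Pool.Agent.Helper74.NQ.Defs

set_option autoImplicit false

/-!
# Noisy devices which ask one oracle query between two layers of one-qubit gates
-/

namespace Pool.Agent.Helper80.NQ

open Finset
open Pool.Agent.Helper67.EQP Pool.Agent.Helper67.LB
open Pool.Agent.Helper74.NQ

/-- The string `0 s 0...0` with `|s|` zeros at the end. -/
def pad (s : List Bool) : List Bool := false :: (s ++ List.replicate s.length false)

/-- The string `1 s 0...0` with `|s|` zeros at the end. -/
def look (s : List Bool) : List Bool := true :: (s ++ List.replicate s.length false)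

/-- The number of classes of qubits of the device with the code `κ`: one for every symbol of the
code, and `8 |κ| + 14` others. -/
def cls (κ : List Bool) : ℕ := κ.length + (2 * par κ + 6)

/-- The number of qubits read by the oracle gate; `M` is a parameter for the size of the device. -/
def size (κ : List Bool) (M : ℕ) : ℕ := 2 * Nat.pair κ.length M

/-- The header qubits. The qubit `i` belongs to the class `i % cls κ`. -/
abbrev Hd (κ : List Bool) (M : ℕ) : Type :=
  {i : Fin (size κ M) // i.1 % cls κ < κ.length}

/-- The body qubits. -/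
abbrev Bd (κ : List Bool) (M : ℕ) : Type :=
  {i : Fin (size κ M) // ¬ i.1 % cls κ < κ.length}

/-- All qubits: the header, the body and the target qubit of the oracle gate. -/
abbrev Qb (κ : List Bool) (M : ℕ) : Type := Hd κ M ⊕ (Bd κ M ⊕ Unit)

/-- The `i`-th qubit read by the oracle gate. -/
def wire (κ : List Bool) (M : ℕ) (i : Fin (size κ M)) : Qb κ M :=
  if h : i.1 % cls κ < κ.length then Sum.inl ⟨i, h⟩ else Sum.inr (Sum.inl ⟨i, h⟩)

theorem target_notMem (κ : List Bool) (M : ℕ) :
    (Sum.inr (Sum.inr ()) : Qb κ M) ∉ (List.finRange (size κ M)).map (wire κ M) := by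
  intro h
  obtain ⟨i, _, hi⟩ := List.mem_map.mp h
  unfold wire at hi
  split_ifs at hi
  simp at hi

/-- The steps of the device with the code `κ`: the header qubits in the class `j` are prepared in
the state `κ_j`. -/
noncomputable def steps (κ : List Bool) (M : ℕ) : List (Step (Qb κ M)) :=
  devSteps (fun i : Hd κ M => κ.getD (i.1.1 % cls κ) false)
    ((List.finRange (size κ M)).map (wire κ M)) (target_notMem κ M)

/-- The majority of the bits of the outcome `z` in the class `|κ| + j`. -/
def maj {κ : List Bool} {M : ℕ} (z : Qb κ M → Bool) (j : ℕ) : Bool :=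
  decide (#{i : Bd κ M | i.1.1 % cls κ = κ.length + j ∧ z (Sum.inr (Sum.inl i)) = false} <
    #{i : Bd κ M | i.1.1 % cls κ = κ.length + j ∧ z (Sum.inr (Sum.inl i)) = true})

/-- The vote 1, -1 or 0 computed from the outcome `z` of a run; it needs one classical query. -/
def vote (B : List Bool → Bool) (κ : List Bool) (M : ℕ) (z : Qb κ M → Bool) : ℤ :=
  if maj z (2 * par κ + 5) = true then
    spin (xor (maj z (2 * par κ + 4))
      (B (look (κ ++ List.ofFn fun j : Fin (2 * par κ + 4) => maj z j.1)))) else 0

/-- The probability that the decision by the sum of the votes of `K` independent runs differs from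
`a`. The noise rates may depend on the run, the step and the qubit. -/
noncomputable def errProb (B : List Bool → Bool) (κ : List Bool) (M : ℕ) {K : ℕ}
    (r : Fin K → ℕ → Qb κ M → ℝ) (a : Bool) : ℝ :=
  ∑ z : Fin K → Qb κ M → Bool, (∏ j, outProb B (r j) (steps κ M) (z j)) *
    (if decide (0 < ∑ j, vote B κ M (z j)) = a then 0 else 1)

/-- The noisy devices with the code `κ` output `a`: whatever the noise rates are, as long as
`16 (|κ| + 1) ≤ (1 - r)^8 M` for all of them, the decision by `K` runs of the device of size `M` is
`a` up to an error probability which is exponentially small in `K`. -/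
def NoisyOutput (B : List Bool → Bool) (κ : List Bool) (a : Bool) : Prop :=
  ∀ (M K : ℕ) (r : Fin K → ℕ → Qb κ M → ℝ),
    (∀ j q, ∀ p < 4, 0 ≤ r j p q ∧ r j p q ≤ 1 ∧
      16 * ((κ.length : ℝ) + 1) ≤ (1 - r j p q) ^ 8 * M) →
    errProb B κ M r a ≤ (143 / 144) ^ K

end Pool.Agent.Helper80.NQ
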