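import Pool.Agent.Helper80.NQ.Defs

set_option autoImplicit false

namespace Pool.Agent.Helper80.NQ

open Pool.Agent.Helper67.EQP Pool.Agent.Helper67.LB Pool.Agent.Helper67.EL

open Classical in
theorem resultStmt :
    VerySlow (fun n => n) ∧
    ∀ (b : ℕ∞) (N : (k : ℕ) → ℕ → XMachine (k + 1)) (F : ℕ → OFun) (t : ℕ → ℕ), VerySlow t →
      ∀ M : (m : ℕ) → ℕ → TMachine t m, ∃ (B : List Bool → Bool) (L : Set ℕ),
        (∀ k : ℕ, b = k → ∀ i x,
          Alt k true (fun y : Fin k → Fin (wid ((N k i).code i x)) → Bool =>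
            B (pad (mstr ((N k i).code i x) y)) = true) ↔ (N k i).Accepts B x) ∧
        (∀ j : ℕ, (j : ℕ∞) < b → ∀ i, {n | (M j i).Accepts B n} ≠ {n | Alt (j + 1) true
          (fun y : Fin (j + 1) → Fin (4 * (2 * n)) → Bool =>
            B (pad (fstr n y)) = true)}) ∧
        (∀ i x, NoisyOutput B ((F i).code i x) ((F i).F B x)) ∧
        (∀ n, NoisyOutput B (List.replicate n true) (decide (n ∈ L))) ∧
        L.Infinite ∧
        ∀ m i, {n | (M m i).Accepts B n} ⊆ L → {n | (M m i).Accepts B n}.Finite := by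
  sorry

end Pool.Agent.Helper80.NQ
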